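import Mathlib

set_option autoImplicit false

/-!
# The q-division ring
Project QD (helper921), MP_fd4dc8_al.
-/

namespace Pool.Agent.N921.QD

/-- `(D, x, y)` is the q-division ring `k_q(x,y)` over `k`: `D` is a division ring and a `k`-algebra,
`x y = q y x`, the monomials `x^i y^j` (`i, j ≥ 0`) are linearly independent over `k` (so that the
subalgebra generated by `x` and `y` is the quantum plane `k_q[x,y]`), and every element of `D` is a
fraction `a b⁻¹` of elements of this subalgebra. -/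
structure IsQ (k : Type*) [Field k] (q : k) (D : Type*) [DivisionRing D] [Algebra k D] (x y : D) :
    Prop where
  rel : x * y = algebraMap k D q * (y * x)
  indep : LinearIndependent k (fun m : ℕ × ℕ => x ^ m.1 * y ^ m.2)
  frac : ∀ d : D, ∃ a b : D, a ∈ Algebra.adjoin k {x, y} ∧ b ∈ Algebra.adjoin k {x, y} ∧ b ≠ 0 ∧
    d = a * b⁻¹

/-- Universal property. -/
def S_UNIV : Prop := ∀ (k : Type) [Field k] (q : k), q ≠ 0 → (∀ n : ℕ, 0 < n → q ^ n ≠ 1) →
  ∀ (D : Type) [DivisionRing D] [Algebra k D] (x y : D), IsQ k q D x y →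
  ∀ (E : Type) [DivisionRing E] [Algebra k E] (X Y : E), X ≠ 0 → Y ≠ 0 →
    X * Y = algebraMap k E q * (Y * X) → ∃ φ : D →ₐ[k] E, φ x = X ∧ φ y = Y

/-- The degree valuation with weights 2 and 1. -/
def S_VAL : Prop := ∀ (k : Type) [Field k] (q : k), q ≠ 0 →
  ∀ (D : Type) [DivisionRing D] [Algebra k D] (x y : D), IsQ k q D x y →
  ∃ ν : D → WithBot ℤ, (∀ a, ν a = ⊥ ↔ a = 0) ∧ (∀ a b, ν (a * b) = ν a + ν b) ∧
    (∀ a b, ν (a + b) ≤ max (ν a) (ν b)) ∧ ν x = 2 ∧ ν y = 1 ∧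
    ∀ c : k, c ≠ 0 → ν (algebraMap k D c) = 0

/-- Existence. -/
def S_EXIST : Prop := ∀ (k : Type) [Field k] (q : k), q ≠ 0 →
  ∃ (D : Type) (_ : DivisionRing D) (_ : Algebra k D) (x y : D), IsQ k q D x y

end Pool.Agent.N921.QD
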