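import Pool.Agent.N921.QD.Core

set_option autoImplicit false
set_option linter.all false

/-!
# The invariant `s1 s2 - q⁻²` is not zero
-/

namespace Pool.Agent.N921.QD.Core

open Pool.Agent.N921.QD Pool.Agent.N921.QD.Lin Pool.Agent.N921.QD.Gen Pool.Agent.N921.QD.Rel

variable {k : Type} [Field k] {q : k} {D : Type} [DivisionRing D] [Algebra k D]

section

variable {π : D ≃ₐ[k] D} {a : ZMod 5 → D} {ν : D → WithBot ℤ} {s1 s2 B1 B4 f T : D}

theorem s1_ne (hq : q ≠ 0) (hq1 : q ≠ 1) (hR : RelI q s1 s2 B1 B4 f T) : s1 ≠ 0 := by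
  intro h
  have e := hR.rss
  rw [h, mul_zero, zero_mul, smul_zero, zero_add] at e
  have e2 : q⁻¹ ^ 2 - q⁻¹ = 0 := by
    rcases smul_eq_zero.1 e.symm with h1 | h1
    · exact h1
    · exact absurd h1 one_ne_zero
  apply hq1
  field_simp at e2
  linear_combination -e2

/-- The first generator of the invariants. -/
def V (q : k) (s1 s2 : D) : D := s1 * s2 - (q⁻¹ ^ 2) • (1 : D)

theorem V_eq (hq : q ≠ 0) (hR : RelI q s1 s2 B1 B4 f T) :
    s2 * s1 = q • V q s1 s2 + (q⁻¹ ^ 2) • (1 : D) := by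
  rw [hR.rss, V]
  match_scalars <;> field_simp <;> ring

theorem V_comm (hq : q ≠ 0) (hR : RelI q s1 s2 B1 B4 f T) :
    V q s1 s2 * s1 = q • (s1 * V q s1 s2) := by
  have e : V q s1 s2 * s1 = s1 * (s2 * s1) - (q⁻¹ ^ 2) • s1 := by
    rw [V, sub_mul, mul_assoc, smul_mul_assoc, one_mul]
  rw [e, V_eq hq hR, mul_add, mul_smul_comm, mul_smul_comm, mul_one]
  module

theorem B1_V (hq : q ≠ 0) (hR : RelI q s1 s2 B1 B4 f T) :
    B1 * V q s1 s2 = s2 * s2 + (q⁻¹ ^ 2) • (s1 * (s1 * s1)) := by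
  have e := hR.rB4s
  rw [hR.rB4, sub_mul, mul_assoc, V_eq hq hR, mul_add, mul_smul_comm, mul_smul_comm, mul_one,
    smul_mul_assoc, mul_assoc] at e
  have e2 : q • (B1 * V q s1 s2) = q • (s2 * s2 + (q⁻¹ ^ 2) • (s1 * (s1 * s1))) := by
    linear_combination (norm := (match_scalars <;> field_simp <;> ring)) e
  have e3 := congrArg (fun d => q⁻¹ • d) e2
  simpa only [smul_smul, inv_mul_cancel₀ hq, one_smul] using e3

theorem le_of_five (h : Setup q π a ν) (d : D) (hd : d * (d * (d * (d * d))) ∈ O h) : d ∈ O h := by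
  rw [mem_O] at hd ⊢
  simp only [h.deg.mul] at hd
  generalize ν d = w at *
  induction w using WithBot.recBotCoe with
  | bot => exact bot_le
  | coe w =>
    have h' : ((w + (w + (w + (w + w))) : ℤ) : WithBot ℤ) ≤ ((0 : ℤ) : WithBot ℤ) := hd
    have := WithBot.coe_le_coe.1 h'
    apply WithBot.coe_le_coe.2
    omega

theorem T_not (h : Setup q π a ν) : a 0 + a 1 + a 2 + a 3 + a 4 ∉ O h := by
  intro hT
  rw [mem_O] at hT
  have e : a 0 = (a 0 + a 1 + a 2 + a 3 + a 4) + (-(a 1) + (-(a 2) + (-(a 3) + -(a 4)))) := by abel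
  have h01 : (0 : WithBot ℤ) ≤ 1 := zero_le_one
  have e2 : ν (a 0) ≤ 1 := by
    rw [e]
    refine (h.deg.add _ _).trans (max_le (hT.trans h01) ?_)
    refine (h.deg.add _ _).trans (max_le ?_ ?_)
    · rw [h.deg.neg]
      exact hone h 1 (by decide)
    refine (h.deg.add _ _).trans (max_le ?_ ?_)
    · rw [h.deg.neg]
      exact hone h 2 (by decide)
    refine (h.deg.add _ _).trans (max_le ?_ ?_)
    · rw [h.deg.neg]
      exact hone h 3 (by decide)
    · rw [h.deg.neg]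
      exact hone h 4 (by decide)
  rw [h.n0] at e2
  have e3 : ((2 : ℤ) : WithBot ℤ) ≤ ((1 : ℤ) : WithBot ℤ) := e2
  have := WithBot.coe_le_coe.1 e3
  omega

theorem V_ne (h : Setup q π a ν) (hR : RelI q s1 s2 B1 B4 f (a 0 + a 1 + a 2 + a 3 + a 4)) :
    V q s1 s2 ≠ 0 := by
  intro hV
  have hq := h.q0
  have hq5 : q ^ 5 ≠ 1 := h.q1 5 (by norm_num)
  have e1 : s1 * s2 = (q⁻¹ ^ 2) • (1 : D) := by
    have := hV
    rw [V] at this
    exact sub_eq_zero.1 this
  have e2 : s2 * s1 = (q⁻¹ ^ 2) • (1 : D) := by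
    rw [V_eq hq hR, hV, smul_zero, zero_add]
  have e3 : s1 * (s1 * s1) = -(q ^ 2 • (s2 * s2)) := by
    have := B1_V hq hR
    rw [hV, mul_zero] at this
    have h2 := congrArg (fun d => q ^ 2 • d) this
    simp only [smul_zero, smul_add, smul_smul] at h2
    rw [show q ^ 2 * q⁻¹ ^ 2 = 1 by field_simp, one_smul] at h2
    exact eq_neg_of_add_eq_zero_right h2.symm
  have e4 : s1 * (s1 * (s1 * s1)) = -s2 := by
    rw [e3, mul_neg, mul_smul_comm, ← mul_assoc, e1, smul_mul_assoc, one_mul, smul_smul,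
      show q ^ 2 * q⁻¹ ^ 2 = 1 by field_simp, one_smul]
  have e5 : s1 * (s1 * (s1 * (s1 * s1))) = -((q⁻¹ ^ 2) • (1 : D)) := by
    rw [e4, mul_neg, e1]
  have e6 : s1 * B1 = q • (B1 * s1) - (q - q ^ 4) • s2 := by
    have h1 : B1 * s2 - q⁻¹ • (s1 * s1) = q • (s2 * B1) - q ^ 2 • (s1 * s1) := by
      rw [← hR.rB4, ← hR.rB4']
    have h2 := congrArg (fun d => s1 * d * s1) h1
    simp only [mul_sub, sub_mul, mul_smul_comm, smul_mul_assoc, mul_assoc] at h2
    rw [e4, e2, ← mul_assoc s1 s2, e1] at h2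
    simp only [mul_smul_comm, smul_mul_assoc, mul_one, one_mul] at h2
    have h3 : q⁻¹ ^ 2 • (s1 * B1) = q⁻¹ ^ 2 • (q • (B1 * s1) - (q - q ^ 4) • s2) := by
      linear_combination (norm := (match_scalars <;> field_simp <;> ring)) h2
    have h4 := congrArg (fun d => q ^ 2 • d) h3
    simp only [smul_smul] at h4
    rwa [show q ^ 2 * q⁻¹ ^ 2 = 1 by field_simp, one_smul, one_smul] at h4
  have e7 : s1 * (s2 * s2) = q⁻¹ ^ 2 • s2 := by
    rw [← mul_assoc, e1, smul_mul_assoc, one_mul]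
  have e8 : (s2 * s2) * s1 = q⁻¹ ^ 2 • s2 := by
    rw [mul_assoc, e2, mul_smul_comm, mul_one]
  obtain ⟨B', hB'⟩ : ∃ B', B' = B1 - (-(q ^ 3 * (1 + q + q ^ 2))) • (s2 * s2) := ⟨_, rfl⟩
  have e9 : s1 * B' = q • (B' * s1) := by
    rw [hB', mul_sub, sub_mul, mul_smul_comm, smul_mul_assoc, e6, e7, e8]
    match_scalars <;> field_simp <;> ring
  have e10 : s1 * (s1 * (s1 * (s1 * s1))) * B' =
      q ^ 5 • (B' * (s1 * (s1 * (s1 * (s1 * s1))))) := by
    have g : ∀ d, s1 * (B' * d) = q • (B' * (s1 * d)) := by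
      intro d
      rw [← mul_assoc, e9, smul_mul_assoc, mul_assoc]
    simp only [mul_assoc, e9, mul_smul_comm, g, smul_smul]
    congr 1
    ring
  have e11 : B' = 0 := by
    rw [e5, neg_mul, mul_neg, smul_mul_assoc, one_mul, mul_smul_comm, mul_one] at e10
    have h1 : (q⁻¹ ^ 2 * (1 - q ^ 5)) • B' = 0 := by
      linear_combination (norm := module) -e10
    rcases smul_eq_zero.1 h1 with h2 | h2
    · exfalso
      rcases mul_eq_zero.1 h2 with h3 | h3
      · exact pow_ne_zero 2 (inv_ne_zero hq) h3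
      · exact hq5 (sub_eq_zero.1 h3).symm
    · exact h2
  have m1 : s1 ∈ O h := by
    apply le_of_five h
    rw [e5]
    exact (O h).neg_mem ((O h).smul_mem (O h).one_mem _)
  have m2 : s2 ∈ O h := by
    have : s2 = -(s1 * (s1 * (s1 * s1))) := by rw [e4, neg_neg]
    rw [this]
    exact (O h).neg_mem ((O h).mul_mem m1 ((O h).mul_mem m1 ((O h).mul_mem m1 m1)))
  have m3 : B1 ∈ O h := by
    have : B1 = (-(q ^ 3 * (1 + q + q ^ 2))) • (s2 * s2) := by
      rw [e11] at hB'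
      exact (sub_eq_zero.1 hB'.symm)
    rw [this]
    exact (O h).smul_mem ((O h).mul_mem m2 m2) _
  have m4 : B4 ∈ O h := by
    rw [hR.rB4]
    exact (O h).sub_mem ((O h).mul_mem m3 m2) ((O h).smul_mem ((O h).mul_mem m1 m1) _)
  apply T_not h
  rw [hR.rT]
  exact (O h).sub_mem ((O h).add_mem ((O h).sub_mem ((O h).add_mem ((O h).add_mem ((O h).add_mem
    ((O h).add_mem ((O h).add_mem ((O h).smul_mem (O h).one_mem _) ((O h).smul_mem m3 _)) m4)
    ((O h).smul_mem m1 _)) ((O h).smul_mem m2 _)) ((O h).smul_mem ((O h).mul_mem m3 m4) _))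
    ((O h).smul_mem ((O h).mul_mem m3 m2) _)) ((O h).mul_mem m1 m1)) ((O h).mul_mem m1 m2)

end

end Pool.Agent.N921.QD.Core
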